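import Mathlib

set_option autoImplicit false

/-!
# Spanning growth rates of a subshift with a non-discrete alphabet metric (MP_6f7bab_an, Q1): yes

Alphabet `{0, 1, 2, 3}`; `1, 2` are data letters, `3` is a joker at distance `1` from both, all
other pairs of distinct letters have distance `2`; `k = 2` and `ε = 1`.  The subshift consists of
the sequences in which a run of nonzero letters with a zero on both sides consists of data letters
and has length `4^j` for some `j`, while runs bounded on one side only (or on no side) are arbitrary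
data runs or joker runs.  At time `4^j + 2` all `2^(4^j)` bounded runs are needed; at time
`2 · 4^j` all longer runs are covered by jokers.
-/

namespace Pool.Agent.Results.MP_6f7bab_an.SpanRateOscillates

open Filter Topology

/-- The shift. -/
def shift {A : Type} (x : ℕ → A) : ℕ → A := fun n => x (n + 1)

/-- `X` is a (one-sided) subshift over the finite alphabet `A`. -/
def IsSubshift {A : Type} [TopologicalSpace A] (X : Set (ℕ → A)) : Prop :=
  X.Nonempty ∧ IsClosed X ∧ ∀ x ∈ X, shift x ∈ X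

/-- `d` is a metric on the set `s`. -/
def IsMetricOn {α : Type} (d : α → α → ℝ) (s : Set α) : Prop :=
  ∀ x ∈ s, ∀ y ∈ s, 0 ≤ d x y ∧ (d x y = 0 ↔ x = y) ∧ d x y = d y x ∧
    ∀ z ∈ s, d x z ≤ d x y + d y z

/-- `D(x, y) = d(x_Δ, y_Δ) k^(-Δ)`, `Δ` the first index where `x` and `y` differ (it is `0` for
`x = y`, and then `D(x, x) = d(x_0, x_0) = 0`). -/
noncomputable def D {A : Type} (d : A → A → ℝ) (k : ℕ) (x y : ℕ → A) : ℝ :=
  d (x (PiNat.firstDiff x y)) (y (PiNat.firstDiff x y)) / (k : ℝ) ^ (PiNat.firstDiff x y)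

/-- The Bowen metric `D_T(x, y) = max_{0 ≤ t < T} D(σ^t x, σ^t y)`. -/
noncomputable def DT {A : Type} (d : A → A → ℝ) (k T : ℕ) (x y : ℕ → A) : ℝ :=
  ⨆ t : Fin T, D d k (shift^[t] x) (shift^[t] y)

/-- The least size of an `ε`-spanning subset of `X` for `D_T`. -/
noncomputable def span {A : Type} (d : A → A → ℝ) (k : ℕ) (X : Set (ℕ → A)) (ε : ℝ) (T : ℕ) : ℕ :=
  sInf {n | ∃ F : Finset (ℕ → A), (F : Set (ℕ → A)) ⊆ X ∧ F.card = n ∧
    ∀ x ∈ X, ∃ y ∈ F, DT d k T x y ≤ ε}

/-- The condition `(P_ε)`. -/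
def PCond {A : Type} (d : A → A → ℝ) (k : ℕ) (X : Set (ℕ → A)) (ε : ℝ) : Prop :=
  liminf (fun T : ℕ => ((Real.log (span d k X ε T) / T : ℝ) : EReal)) atTop =
    limsup (fun T : ℕ => ((Real.log (span d k X ε T) / T : ℝ) : EReal)) atTop

/-! ### The example -/

/-- Distances, as natural numbers. -/
def dn (i j : Fin 4) : ℕ :=
  if i = j then 0 else if (i = 3 ∧ j ≠ 0) ∨ (j = 3 ∧ i ≠ 0) then 1 else 2

/-- The metric on the alphabet. -/
noncomputable def dd (i j : Fin 4) : ℝ := (dn i j : ℝ)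

lemma dn_zero : ∀ i j, dn i j = 0 ↔ i = j := by decide
lemma dn_comm : ∀ i j, dn i j = dn j i := by decide
lemma dn_tri : ∀ i j l, dn i l ≤ dn i j + dn j l := by decide
lemma dn_le : ∀ i j, dn i j ≤ 2 := by decide

lemma dd_metric : IsMetricOn dd Set.univ := by
  intro x _ y _
  refine ⟨Nat.cast_nonneg _, ?_, ?_, ?_⟩
  · unfold dd; rw [Nat.cast_eq_zero]; exact dn_zero x y
  · unfold dd; rw [dn_comm]
  · intro z _
    unfold dd
    exact_mod_cast dn_tri x y z

lemma dd_nonneg (i j : Fin 4) : 0 ≤ dd i j := Nat.cast_nonneg _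
lemma dd_le (i j : Fin 4) : dd i j ≤ 2 := by unfold dd; exact_mod_cast dn_le i j
lemma one_le_dd {i j : Fin 4} (h : i ≠ j) : 1 ≤ dd i j := by
  unfold dd
  have : dn i j ≠ 0 := fun h' => h ((dn_zero i j).1 h')
  exact_mod_cast Nat.one_le_iff_ne_zero.2 this
lemma dd_self (i : Fin 4) : dd i i = 0 := by unfold dd; rw [(dn_zero i i).2 rfl]; simp
lemma dd_le_one {i j : Fin 4} : dd i j ≤ 1 ↔ dn i j ≤ 1 := by unfold dd; norm_cast

/-- `D` for the example. -/
noncomputable abbrev DD : (ℕ → Fin 4) → (ℕ → Fin 4) → ℝ := D dd 2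

lemma DD_def (x y : ℕ → Fin 4) : DD x y =
    dd (x (PiNat.firstDiff x y)) (y (PiNat.firstDiff x y)) / (2 : ℝ) ^ (PiNat.firstDiff x y) := by
  show D dd 2 x y = _
  unfold D
  rw [Nat.cast_ofNat]

lemma DD_nonneg (x y : ℕ → Fin 4) : 0 ≤ DD x y := by
  rw [DD_def]; exact div_nonneg (dd_nonneg _ _) (by positivity)

lemma fd_ne {x y : ℕ → Fin 4} (h : x ≠ y) :
    x (PiNat.firstDiff x y) ≠ y (PiNat.firstDiff x y) := PiNat.apply_firstDiff_ne h

lemma fd_eq {x y : ℕ → Fin 4} {n : ℕ} (h : n < PiNat.firstDiff x y) : x n = y n :=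
  PiNat.apply_eq_of_lt_firstDiff h

lemma DD_eq_zero (x y : ℕ → Fin 4) : DD x y = 0 ↔ x = y := by
  constructor
  · intro h
    by_contra hne
    rw [DD_def, div_eq_zero_iff] at h
    have h2 := one_le_dd (fd_ne hne)
    rcases h with h | h
    · linarith
    · exact absurd h (by positivity)
  · rintro rfl; rw [DD_def, dd_self, zero_div]

lemma DD_comm (x y : ℕ → Fin 4) : DD x y = DD y x := by
  rw [DD_def, DD_def, PiNat.firstDiff_comm x y]
  congr 1
  unfold dd; rw [dn_comm]

lemma DD_ge {x y : ℕ → Fin 4} {n : ℕ} (hne : x ≠ y) (h : PiNat.firstDiff x y ≤ n) :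
    1 / (2 : ℝ) ^ n ≤ DD x y := by
  rw [DD_def]
  have h2 := one_le_dd (fd_ne hne)
  calc 1 / (2 : ℝ) ^ n ≤ 1 / 2 ^ (PiNat.firstDiff x y) := by
        apply one_div_le_one_div_of_le (by positivity)
        exact pow_le_pow_right₀ (by norm_num) h
    _ ≤ _ := by gcongr

lemma DD_tri (x y z : ℕ → Fin 4) : DD x z ≤ DD x y + DD y z := by
  by_cases hxz : x = z
  · rw [(DD_eq_zero x z).2 hxz]
    exact add_nonneg (DD_nonneg _ _) (DD_nonneg _ _)
  by_cases hxy : x = y
  · subst hxy; have := DD_nonneg x x; linarith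
  by_cases hyz : y = z
  · subst hyz; have := DD_nonneg y y; linarith
  set p := PiNat.firstDiff x z with hp
  have hup : DD x z ≤ 2 / 2 ^ p := by
    rw [DD_def, ← hp]
    gcongr; exact dd_le _ _
  have key : ∀ m, m < p → 2 / (2 : ℝ) ^ p ≤ 1 / 2 ^ m := by
    intro m hm
    rw [div_le_div_iff₀ (by positivity) (by positivity), one_mul, ← pow_succ']
    exact pow_le_pow_right₀ (by norm_num) hm
  rcases lt_or_ge (PiNat.firstDiff x y) p with h1 | h1
  · have := key _ h1
    have h2 := DD_ge hxy le_rfl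
    have := DD_nonneg y z
    linarith
  rcases lt_or_ge (PiNat.firstDiff y z) p with h2 | h2
  · have := key _ h2
    have h3 := DD_ge hyz le_rfl
    have := DD_nonneg x y
    linarith
  have hpos : (0 : ℝ) < 2 ^ p := by positivity
  have h3 : dd (x p) (y p) / 2 ^ p ≤ DD x y := by
    rcases h1.lt_or_eq with h | h
    · rw [fd_eq h, dd_self, zero_div]; exact DD_nonneg _ _
    · rw [DD_def, ← h]
  have h4 : dd (y p) (z p) / 2 ^ p ≤ DD y z := by
    rcases h2.lt_or_eq with h | h
    · rw [fd_eq h, dd_self, zero_div]; exact DD_nonneg _ _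
    · rw [DD_def, ← h]
  have h5 : dd (x p) (z p) ≤ dd (x p) (y p) + dd (y p) (z p) :=
    (dd_metric (x p) trivial (y p) trivial).2.2.2 (z p) trivial
  calc DD x z = dd (x p) (z p) / 2 ^ p := by rw [DD_def]
    _ ≤ (dd (x p) (y p) + dd (y p) (z p)) / 2 ^ p := by gcongr
    _ = dd (x p) (y p) / 2 ^ p + dd (y p) (z p) / 2 ^ p := add_div _ _ _
    _ ≤ _ := add_le_add h3 h4

lemma DD_le_one (x y : ℕ → Fin 4) : DD x y ≤ 1 ↔ dn (x 0) (y 0) ≤ 1 := by
  rcases Nat.eq_zero_or_pos (PiNat.firstDiff x y) with h | h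
  · rw [DD_def, h, pow_zero, div_one, dd_le_one]
  · have e : x 0 = y 0 := fd_eq h
    have h2 : DD x y ≤ 1 := by
      rw [DD_def, div_le_one (by positivity)]
      refine (dd_le _ _).trans ?_
      calc (2 : ℝ) = 2 ^ 1 := by norm_num
        _ ≤ 2 ^ _ := pow_le_pow_right₀ (by norm_num) h
    refine ⟨fun _ => ?_, fun _ => h2⟩
    rw [e, (dn_zero _ _).2 rfl]; omega

lemma shift_iterate {A : Type} (x : ℕ → A) (t n : ℕ) : (shift^[t] x) n = x (n + t) := by
  induction t generalizing x with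
  | zero => rfl
  | succ t ih =>
    rw [Function.iterate_succ_apply, ih]
    simp only [shift]
    congr 1

lemma DT_le_one (T : ℕ) (x y : ℕ → Fin 4) :
    DT dd 2 T x y ≤ 1 ↔ ∀ t < T, dn (x t) (y t) ≤ 1 := by
  have key : ∀ t, DD (shift^[t] x) (shift^[t] y) ≤ 1 ↔ dn (x t) (y t) ≤ 1 := by
    intro t
    rw [DD_le_one, shift_iterate, shift_iterate, zero_add]
  unfold DT
  constructor
  · intro h t ht
    rw [← key]
    refine le_trans ?_ h
    exact le_ciSup (f := fun t : Fin T => DD (shift^[t] x) (shift^[t] y))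
      (Set.finite_range _).bddAbove (⟨t, ht⟩ : Fin T)
  · intro h
    rcases Nat.eq_zero_or_pos T with h0 | h0
    · subst h0
      rw [Real.iSup_of_isEmpty]; norm_num
    · haveI : Nonempty (Fin T) := ⟨⟨0, h0⟩⟩
      exact ciSup_le fun t => (key t).2 (h t t.2)

/-- The subshift. -/
def XX : Set (ℕ → Fin 4) :=
  {x | (∀ n, x n ≠ 0 → x n ≠ 3 → x (n + 1) ≠ 3) ∧
    (∀ n m, x n ≠ 0 → x (n + 1) = 0 → n < m → x m = 0) ∧
    ∀ n L, x n = 0 → (∀ i, 1 ≤ i → i ≤ L → x (n + i) ≠ 0) → 1 ≤ L → x (n + L + 1) = 0 →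
      (∃ j, L = 4 ^ j) ∧ x (n + 1) ≠ 3}

lemma isClosed_of_prefix {X : Set (ℕ → Fin 4)}
    (h : ∀ x, (∀ n, ∃ y ∈ X, ∀ i < n, y i = x i) → x ∈ X) : IsClosed X := by
  rw [← isOpen_compl_iff, isOpen_iff_forall_mem_open]
  intro x hx
  have h2 : ∃ n, ∀ y ∈ X, ¬ ∀ i < n, y i = x i := by
    by_contra hcon
    push Not at hcon
    exact hx (h x fun n => by
      obtain ⟨y, hy, hy2⟩ := hcon n
      exact ⟨y, hy, hy2⟩)
  obtain ⟨n, hn⟩ := h2
  refine ⟨{y | ∀ i < n, y i = x i}, fun y hy hyX => hn y hyX hy, ?_, fun i _ => rfl⟩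
  have e : {y : ℕ → Fin 4 | ∀ i < n, y i = x i} = ⋂ i ∈ Finset.range n, {y | y i = x i} := by
    ext y; simp
  rw [e]
  refine isOpen_biInter_finset fun i _ => ?_
  have hc : Continuous (fun y : ℕ → Fin 4 => y i) := continuous_apply i
  exact (isOpen_discrete ({x i} : Set (Fin 4))).preimage hc

lemma zero_mem : (fun _ => 0 : ℕ → Fin 4) ∈ XX :=
  ⟨fun _ h => absurd rfl h, fun _ _ h => absurd rfl h, fun n L _ h h1 _ => absurd rfl (h 1 le_rfl h1)⟩

lemma isSubshift_XX : IsSubshift XX := by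
  refine ⟨⟨_, zero_mem⟩, isClosed_of_prefix ?_, ?_⟩
  · intro x hx
    refine ⟨?_, ?_, ?_⟩
    · intro n h1 h2
      obtain ⟨y, hy, hyx⟩ := hx (n + 2)
      have := hy.1 n
      rw [hyx n (by omega), hyx (n + 1) (by omega)] at this
      exact this h1 h2
    · intro n m h1 h2 h3
      obtain ⟨y, hy, hyx⟩ := hx (m + 2)
      have := hy.2.1 n m
      rw [hyx n (by omega), hyx (n + 1) (by omega), hyx m (by omega)] at this
      exact this h1 h2 h3
    · intro n L h1 h2 h3 h4
      obtain ⟨y, hy, hyx⟩ := hx (n + L + 2)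
      have := hy.2.2 n L
      rw [hyx n (by omega), hyx (n + L + 1) (by omega), hyx (n + 1) (by omega)] at this
      refine this h1 ?_ h3 h4
      intro i hi hiL
      rw [hyx (n + i) (by omega)]
      exact h2 i hi hiL
  · intro x hx
    refine ⟨fun n => hx.1 (n + 1), ?_, ?_⟩
    · intro n m h1 h2 h3
      exact hx.2.1 (n + 1) (m + 1) h1 h2 (by omega)
    · intro n L h1 h2 h3 h4
      have := hx.2.2 (n + 1) L h1 (by
        intro i hi hiL
        have := h2 i hi hiL
        simp only [shift] at this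
        have e : n + 1 + i = n + i + 1 := by ring
        rw [e]; exact this) h3 (by
        have e : n + 1 + L + 1 = n + L + 1 + 1 := by ring
        rw [e]; exact h4)
      exact this

/-- `3^m 0^∞`. -/
def b1 (m : ℕ) : ℕ → Fin 4 := fun n => if n < m then 3 else 0
/-- `0^i 3^∞`. -/
def b2 (i : ℕ) : ℕ → Fin 4 := fun n => if n < i then 0 else 3
/-- `0^i u 0^∞` with `u` of length `L` given by the first letters of `u`. -/
def seg (i L : ℕ) {N : ℕ} (u : Fin N → Bool) : ℕ → Fin 4 := fun n =>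
  if n < i ∨ i + L ≤ n then 0 else if h : n - i < N then (if u ⟨n - i, h⟩ then 2 else 1) else 1

lemma b1_mem (m : ℕ) : b1 m ∈ XX := by
  refine ⟨?_, ?_, ?_⟩
  · intro n h1 h2
    exfalso
    unfold b1 at h1 h2
    split_ifs at h1 h2 <;> simp_all
  · intro n k h1 h2 h3
    unfold b1 at *
    split_ifs at h2 with h4
    · exact absurd h2 (by decide)
    · rw [if_neg (by omega)]
  · intro n L h1 h2 h3 h4
    exfalso
    have h5 := h2 1 le_rfl h3
    unfold b1 at h1 h5
    split_ifs at h1 h5 with h6 h7 <;> first | exact absurd h1 (by decide) | (exact h5 rfl) | omega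

lemma b2_mem (m : ℕ) : b2 m ∈ XX := by
  refine ⟨?_, ?_, ?_⟩
  · intro n h1 h2
    exfalso
    unfold b2 at h1 h2
    split_ifs at h1 h2 <;> simp_all
  · intro n k h1 h2 h3
    exfalso
    unfold b2 at *
    split_ifs at h1 h2 with h4 h5 h6 <;> first | (exact h1 rfl) | exact absurd h2 (by decide) | omega
  · intro n L h1 h2 h3 h4
    exfalso
    have h5 := h2 1 le_rfl h3
    unfold b2 at h4 h5
    split_ifs at h4 h5 with h6 h7 <;> first | (exact h5 rfl) | exact absurd h4 (by decide) | omega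

lemma seg_zero {i L : ℕ} {N : ℕ} (u : Fin N → Bool) {n : ℕ} (h : n < i ∨ i + L ≤ n) :
    seg i L u n = 0 := by unfold seg; rw [if_pos h]

lemma seg_data {i L : ℕ} {N : ℕ} (u : Fin N → Bool) {n : ℕ} (h : ¬ (n < i ∨ i + L ≤ n)) :
    seg i L u n = 1 ∨ seg i L u n = 2 := by
  unfold seg
  rw [if_neg h]
  split_ifs
  · right; rfl
  · left; rfl
  · left; rfl

lemma seg_ne_three {i L : ℕ} {N : ℕ} (u : Fin N → Bool) (n : ℕ) : seg i L u n ≠ 3 := by
  by_cases h : n < i ∨ i + L ≤ n
  · rw [seg_zero u h]; decide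
  · rcases seg_data u h with h2 | h2 <;> rw [h2] <;> decide

lemma seg_eq_zero {i L : ℕ} {N : ℕ} (u : Fin N → Bool) {n : ℕ} (h : seg i L u n = 0) :
    n < i ∨ i + L ≤ n := by
  by_contra hcon
  rcases seg_data u hcon with h2 | h2 <;> rw [h2] at h <;> exact absurd h (by decide)

lemma seg_mem (i j : ℕ) {N : ℕ} (u : Fin N → Bool) : seg i (4 ^ j) u ∈ XX := by
  have h4 : 0 < 4 ^ j := by positivity
  refine ⟨fun n _ _ => seg_ne_three u _, ?_, ?_⟩
  · intro n m h1 h2 h3
    have h5 := seg_eq_zero u h2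
    have h6 : ¬ (n < i ∨ i + 4 ^ j ≤ n) := fun h => h1 (seg_zero u h)
    exact seg_zero u (by omega)
  · intro n L h1 h2 h3 h5
    refine ⟨⟨j, ?_⟩, seg_ne_three u _⟩
    have h6 := seg_eq_zero u h1
    have h7 := seg_eq_zero u h5
    have h8 : ¬ (n + 1 < i ∨ i + 4 ^ j ≤ n + 1) := fun h => h2 1 le_rfl h3 (seg_zero u h)
    have h9 : ¬ (n + L < i ∨ i + 4 ^ j ≤ n + L) := fun h => h2 L h3 le_rfl (seg_zero u h)
    omega

open Classical in
/-- The spanning set at time `T = 2 · 4^k`. -/
noncomputable def cover (k : ℕ) : Finset (ℕ → Fin 4) :=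
  (Finset.range (2 * 4 ^ k + 1)).image b1 ∪ (Finset.range (2 * 4 ^ k + 1)).image b2 ∪
    (Finset.range (2 * 4 ^ k) ×ˢ Finset.range (k + 1) ×ˢ
      (Finset.univ : Finset (Fin (4 ^ k) → Bool))).image (fun p => seg p.1 (4 ^ p.2.1) p.2.2)

lemma card_cover (k : ℕ) : (cover k).card ≤
    (2 * 4 ^ k + 1) + (2 * 4 ^ k + 1) + 2 * 4 ^ k * ((k + 1) * 2 ^ (4 ^ k)) := by
  classical
  unfold cover
  refine (Finset.card_union_le _ _).trans (add_le_add ((Finset.card_union_le _ _).trans
    (add_le_add ?_ ?_)) ?_)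
  · exact Finset.card_image_le.trans (by simp)
  · exact Finset.card_image_le.trans (by simp)
  · refine Finset.card_image_le.trans ?_
    rw [Finset.card_product, Finset.card_product, Finset.card_range, Finset.card_range,
      Finset.card_univ, Fintype.card_fun, Fintype.card_fin, Fintype.card_bool]

lemma cover_subset (k : ℕ) : (cover k : Set (ℕ → Fin 4)) ⊆ XX := by
  classical
  intro x hx
  unfold cover at hx
  rw [Finset.mem_coe, Finset.mem_union, Finset.mem_union, Finset.mem_image, Finset.mem_image,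
    Finset.mem_image] at hx
  rcases hx with (⟨m, _, rfl⟩ | ⟨m, _, rfl⟩) | ⟨p, _, rfl⟩
  · exact b1_mem m
  · exact b2_mem m
  · exact seg_mem _ _ _

lemma dn3 : ∀ i : Fin 4, i ≠ 0 → dn i 3 ≤ 1 := by decide

lemma cover_spans (k : ℕ) {x : ℕ → Fin 4} (hx : x ∈ XX) :
    ∃ y ∈ cover k, ∀ t < 2 * 4 ^ k, dn (x t) (y t) ≤ 1 := by
  classical
  set T := 2 * 4 ^ k with hT
  obtain ⟨hx1, hx2, hx3⟩ := hx
  have hself : ∀ i : Fin 4, dn i i ≤ 1 := by decide
  have mem1 : ∀ m ≤ T, b1 m ∈ cover k := by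
    intro m hm
    unfold cover
    rw [Finset.mem_union, Finset.mem_union]
    exact Or.inl (Or.inl (Finset.mem_image_of_mem _ (Finset.mem_range.2 (by omega))))
  have mem2 : ∀ m ≤ T, b2 m ∈ cover k := by
    intro m hm
    unfold cover
    rw [Finset.mem_union, Finset.mem_union]
    exact Or.inl (Or.inr (Finset.mem_image_of_mem _ (Finset.mem_range.2 (by omega))))
  -- after the first zero following a nonzero letter everything vanishes
  by_cases h0 : x 0 = 0
  · by_cases hall : ∀ t < T, x t = 0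
    · refine ⟨b1 0, mem1 0 (by omega), fun t ht => ?_⟩
      rw [hall t ht]
      simp [b1, dn]
    · push Not at hall
      have hex : ∃ t, t < T ∧ x t ≠ 0 := hall
      classical
      set i := Nat.find hex with hi
      have hi1 : i < T ∧ x i ≠ 0 := Nat.find_spec hex
      have hi2 : ∀ t < i, x t = 0 := by
        intro t ht
        have := Nat.find_min hex ht
        by_contra hne
        exact this ⟨by omega, hne⟩
      have hipos : 0 < i := by
        rcases Nat.eq_zero_or_pos i with h | h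
        · rw [h] at hi1; exact absurd h0 hi1.2
        · exact h
      by_cases hall2 : ∀ t, i ≤ t → t < T → x t ≠ 0
      · refine ⟨b2 i, mem2 i (by omega), fun t ht => ?_⟩
        rcases Nat.lt_or_ge t i with h | h
        · rw [hi2 t h]; simp [b2, h, dn]
        · have : b2 i t = 3 := by unfold b2; rw [if_neg (by omega)]
          rw [this]; exact dn3 _ (hall2 t h ht)
      · push Not at hall2
        have hex2 : ∃ t, i ≤ t ∧ t < T ∧ x t = 0 := hall2
        set m := Nat.find hex2 with hm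
        have hm1 : i ≤ m ∧ m < T ∧ x m = 0 := Nat.find_spec hex2
        have hm2 : ∀ t, i ≤ t → t < m → x t ≠ 0 := by
          intro t h1 h2 h3
          exact Nat.find_min hex2 h2 ⟨h1, by omega, h3⟩
        have him : i < m := by
          rcases hm1.1.lt_or_eq with h | h
          · exact h
          · rw [← h] at hm1; exact absurd hm1.2.2 hi1.2
        have h3 := hx3 (i - 1) (m - i) (hi2 _ (by omega)) (by
          intro l hl hlL
          exact hm2 _ (by omega) (by omega)) (by omega) (by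
          have e : i - 1 + (m - i) + 1 = m := by omega
          rw [e]; exact hm1.2.2)
        obtain ⟨⟨j, hj⟩, hne3⟩ := h3
        have ei : i - 1 + 1 = i := by omega
        rw [ei] at hne3
        have hdata : ∀ t, i ≤ t → t < m → x t ≠ 3 := by
          intro t h1
          induction t, h1 using Nat.le_induction with
          | base => intro _; exact hne3
          | succ n hn ih =>
            intro h2
            exact hx1 n (hm2 n hn (by omega)) (ih (by omega))
        have hzero : ∀ t, m ≤ t → x t = 0 := by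
          intro t ht
          rcases ht.lt_or_eq with h | h
          · exact hx2 (m - 1) t (hm2 _ (by omega) (by omega)) (by
              have e : m - 1 + 1 = m := by omega
              rw [e]; exact hm1.2.2) (by omega)
          · rw [← h]; exact hm1.2.2
        have hjk : j ≤ k := by
          by_contra hcon
          push Not at hcon
          have : 4 ^ (k + 1) ≤ 4 ^ j := Nat.pow_le_pow_right (by norm_num) hcon
          rw [pow_succ] at this
          omega
        let u : Fin (4 ^ k) → Bool := fun l => decide (x (i + l) = 2)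
        have hxu : x = seg i (4 ^ j) u := by
          funext t
          by_cases h : t < i ∨ i + 4 ^ j ≤ t
          · rw [seg_zero u h]
            rcases h with h | h
            · exact hi2 t h
            · exact hzero t (by omega)
          · push Not at h
            have hlen : t - i < 4 ^ k := by
              have : 4 ^ j ≤ 4 ^ k := Nat.pow_le_pow_right (by norm_num) hjk
              omega
            unfold seg
            rw [if_neg (by omega), dif_pos hlen]
            have e : i + (t - i) = t := by omega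
            simp only [u, e, decide_eq_true_eq]
            have h1 := hm2 t h.1 (by omega)
            have h2 := hdata t h.1 (by omega)
            revert h1 h2
            generalize x t = a
            revert a
            decide
        refine ⟨x, ?_, fun t _ => hself _⟩
        rw [hxu]
        unfold cover
        rw [Finset.mem_union]
        right
        rw [Finset.mem_image]
        refine ⟨(i, j, u), ?_, rfl⟩
        rw [Finset.mem_product, Finset.mem_product]
        exact ⟨Finset.mem_range.2 hi1.1, Finset.mem_range.2 (by simp only; omega), Finset.mem_univ _⟩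
  · by_cases hall : ∀ t < T, x t ≠ 0
    · refine ⟨b2 0, mem2 0 (by omega), fun t ht => ?_⟩
      have : b2 0 t = 3 := by unfold b2; rw [if_neg (by omega)]
      rw [this]; exact dn3 _ (hall t ht)
    · push Not at hall
      have hex : ∃ t, t < T ∧ x t = 0 := hall
      classical
      set m := Nat.find hex with hm
      have hm1 : m < T ∧ x m = 0 := Nat.find_spec hex
      have hm2 : ∀ t < m, x t ≠ 0 := by
        intro t ht h
        exact Nat.find_min hex ht ⟨by omega, h⟩
      have hmpos : 0 < m := by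
        rcases Nat.eq_zero_or_pos m with h | h
        · rw [h] at hm1; exact absurd hm1.2 h0
        · exact h
      refine ⟨b1 m, mem1 m (by omega), fun t ht => ?_⟩
      rcases Nat.lt_or_ge t m with h | h
      · have : b1 m t = 3 := by unfold b1; rw [if_pos h]
        rw [this]; exact dn3 _ (hm2 t h)
      · have : b1 m t = 0 := by unfold b1; rw [if_neg (by omega)]
        rw [this]
        have hz : x t = 0 := by
          rcases h.lt_or_eq with h' | h'
          · exact hx2 (m - 1) t (hm2 _ (by omega)) (by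
              have e : m - 1 + 1 = m := by omega
              rw [e]; exact hm1.2) (by omega)
          · rw [← h']; exact hm1.2
        rw [hz]; exact hself _

lemma span_le (k : ℕ) : span dd 2 XX 1 (2 * 4 ^ k) ≤ (cover k).card := by
  refine Nat.sInf_le ⟨cover k, cover_subset k, rfl, fun x hx => ?_⟩
  obtain ⟨y, hy, hy2⟩ := cover_spans k hx
  exact ⟨y, hy, (DT_le_one _ _ _).2 hy2⟩

lemma dn_zero_left : ∀ a : Fin 4, dn 0 a ≤ 1 → a = 0 := by decide
lemma dn_one_left : ∀ a : Fin 4, dn 1 a ≤ 1 → a = 1 ∨ a = 3 := by decide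
lemma dn_two_left : ∀ a : Fin 4, dn 2 a ≤ 1 → a = 2 ∨ a = 3 := by decide

lemma le_card (j : ℕ) {F : Finset (ℕ → Fin 4)} (hF : (F : Set (ℕ → Fin 4)) ⊆ XX)
    (hs : ∀ x ∈ XX, ∃ y ∈ F, DT dd 2 (4 ^ j + 2) x y ≤ 1) : 2 ^ (4 ^ j) ≤ F.card := by
  set N := 4 ^ j with hN
  have hNpos : 1 ≤ N := Nat.one_le_pow _ _ (by norm_num)
  have h : ∀ u : Fin N → Bool, ∃ y ∈ F, ∀ t < N + 2, y t = seg 1 N u t := by
    intro u
    obtain ⟨y, hy, hd⟩ := hs (seg 1 N u) (seg_mem 1 j u)
    rw [DT_le_one] at hd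
    refine ⟨y, hy, ?_⟩
    obtain ⟨hy1, hy2, hy3⟩ := hF hy
    have hz0 : y 0 = 0 := by
      have := hd 0 (by omega)
      rw [seg_zero u (by omega)] at this
      exact dn_zero_left _ this
    have hzN : y (N + 1) = 0 := by
      have := hd (N + 1) (by omega)
      rw [seg_zero u (by omega)] at this
      exact dn_zero_left _ this
    have hmid : ∀ t, 1 ≤ t → t ≤ N → y t = seg 1 N u t ∨ y t = 3 := by
      intro t h1 h2
      have h3 := hd t (by omega)
      rcases seg_data u (i := 1) (L := N) (n := t) (by omega) with h4 | h4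
      · rw [h4] at h3 ⊢; exact dn_one_left _ h3
      · rw [h4] at h3 ⊢; exact dn_two_left _ h3
    have hmid0 : ∀ t, 1 ≤ t → t ≤ N → y t ≠ 0 := by
      intro t h1 h2 h0
      rcases hmid t h1 h2 with h3 | h3
      · rw [h0] at h3
        have := seg_eq_zero u h3.symm
        omega
      · rw [h0] at h3; exact absurd h3 (by decide)
    have h13 := (hy3 0 N hz0 (by
      intro i hi hiN
      rw [zero_add]; exact hmid0 i hi hiN) hNpos (by rw [zero_add]; exact hzN)).2
    rw [zero_add] at h13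
    have hn3 : ∀ t, 1 ≤ t → t ≤ N → y t ≠ 3 := by
      intro t h1
      induction t, h1 using Nat.le_induction with
      | base => intro _; exact h13
      | succ n hn ih =>
        intro h2
        exact hy1 n (hmid0 n hn (by omega)) (ih (by omega))
    intro t ht
    rcases Nat.eq_zero_or_pos t with h0 | h0
    · subst h0; rw [hz0, seg_zero u (by omega)]
    · rcases Nat.lt_or_ge N t with h4 | h4
      · obtain rfl : t = N + 1 := by omega
        rw [hzN, seg_zero u (by omega)]
      · rcases hmid t h0 h4 with h5 | h5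
        · exact h5
        · exact absurd h5 (hn3 t h0 h4)
  choose g hg1 hg2 using h
  have hinj : Function.Injective g := by
    intro u v huv
    funext l
    have h1 := hg2 u (1 + l) (by omega)
    have h2 := hg2 v (1 + l) (by omega)
    rw [huv, h2] at h1
    unfold seg at h1
    have hl : 1 + (l : ℕ) - 1 = l := by omega
    have hlN : (1 + (l : ℕ)) - 1 < N := by omega
    rw [if_neg (by omega), if_neg (by omega), dif_pos hlN, dif_pos hlN] at h1
    have e : (⟨1 + (l : ℕ) - 1, hlN⟩ : Fin N) = l := Fin.ext hl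
    rw [e] at h1
    by_cases hu : u l = true <;> by_cases hv : v l = true
    · rw [hu, hv]
    · exfalso; rw [if_neg hv, if_pos hu] at h1; exact absurd h1 (by decide)
    · exfalso; rw [if_pos hv, if_neg hu] at h1; exact absurd h1 (by decide)
    · rw [Bool.not_eq_true] at hu hv; rw [hu, hv]
  have hcard : Fintype.card (Fin N → Bool) ≤ F.card := by
    have := Finset.card_le_card_of_injOn (s := (Finset.univ : Finset (Fin N → Bool))) (t := F) g
      (fun u _ => hg1 u) (hinj.injOn)
    simpa using this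
  rwa [Fintype.card_fun, Fintype.card_fin, Fintype.card_bool] at hcard

lemma exists_finite_cover (T : ℕ) : ∃ F : Finset (ℕ → Fin 4), (F : Set (ℕ → Fin 4)) ⊆ XX ∧
    ∀ x ∈ XX, ∃ y ∈ F, DT dd 2 T x y ≤ 1 := by
  obtain ⟨k, hk⟩ : ∃ k, T ≤ 2 * 4 ^ k := ⟨T, by
    have : T < 4 ^ T := Nat.lt_pow_self (by norm_num)
    omega⟩
  refine ⟨cover k, cover_subset k, fun x hx => ?_⟩
  obtain ⟨y, hy, hy2⟩ := cover_spans k hx
  exact ⟨y, hy, (DT_le_one _ _ _).2 fun t ht => hy2 t (by omega)⟩

lemma le_span (j : ℕ) : 2 ^ (4 ^ j) ≤ span dd 2 XX 1 (4 ^ j + 2) := by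
  obtain ⟨F, hF, hFs⟩ := exists_finite_cover (4 ^ j + 2)
  have hne : {n | ∃ F : Finset (ℕ → Fin 4), (F : Set (ℕ → Fin 4)) ⊆ XX ∧ F.card = n ∧
    ∀ x ∈ XX, ∃ y ∈ F, DT dd 2 (4 ^ j + 2) x y ≤ 1}.Nonempty := ⟨_, F, hF, rfl, hFs⟩
  obtain ⟨G, hG, hGc, hGs⟩ := Nat.sInf_mem hne
  have := le_card j hG hGs
  unfold span
  rw [← hGc]; exact this

lemma not_PCond : ¬ PCond dd 2 XX 1 := by
  intro h
  have hlog : 0 < Real.log 2 := Real.log_pos (by norm_num)
  have h1 : (((2 / 3 * Real.log 2 : ℝ)) : EReal) ≤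
      limsup (fun T : ℕ => ((Real.log (span dd 2 XX 1 T) / T : ℝ) : EReal)) atTop := by
    refine le_limsup_of_frequently_le' ?_
    rw [frequently_atTop]
    intro T₀
    refine ⟨4 ^ (T₀ + 1) + 2, ?_, ?_⟩
    · have : T₀ + 1 < 4 ^ (T₀ + 1) := Nat.lt_pow_self (by norm_num)
      omega
    · rw [EReal.coe_le_coe_iff]
      have h2 := le_span (T₀ + 1)
      have h3 : ((4 : ℝ) ^ (T₀ + 1)) * Real.log 2 ≤
          Real.log (span dd 2 XX 1 (4 ^ (T₀ + 1) + 2)) := by
        have h4 : ((2 : ℝ) ^ (4 ^ (T₀ + 1))) ≤ span dd 2 XX 1 (4 ^ (T₀ + 1) + 2) := by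
          exact_mod_cast h2
        have h5 := Real.log_le_log (by positivity) h4
        rw [Real.log_pow] at h5
        push_cast at h5
        exact h5
      have h6 : (4 : ℝ) ≤ 4 ^ (T₀ + 1) := by
        calc (4 : ℝ) = 4 ^ 1 := by norm_num
          _ ≤ 4 ^ (T₀ + 1) := pow_le_pow_right₀ (by norm_num) (by omega)
      push_cast
      rw [le_div_iff₀ (by positivity)]
      refine le_trans ?_ h3
      nlinarith
  have h2 : liminf (fun T : ℕ => ((Real.log (span dd 2 XX 1 T) / T : ℝ) : EReal)) atTop ≤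
      (((3 / 5 * Real.log 2 : ℝ)) : EReal) := by
    refine liminf_le_of_frequently_le' ?_
    rw [frequently_atTop]
    intro T₀
    set k := T₀ + 4 with hk
    refine ⟨2 * 4 ^ k, ?_, ?_⟩
    · have : k < 4 ^ k := Nat.lt_pow_self (by norm_num)
      omega
    · rw [EReal.coe_le_coe_iff]
      have h3 := (span_le k).trans (card_cover k)
      have hN : (1 : ℕ) ≤ 4 ^ k := Nat.one_le_pow _ _ (by norm_num)
      have hk4 : k + 1 ≤ 2 ^ k := Nat.lt_two_pow_self
      have h4 : (2 * 4 ^ k + 1) + (2 * 4 ^ k + 1) + 2 * 4 ^ k * ((k + 1) * 2 ^ (4 ^ k)) ≤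
          2 ^ (4 ^ k + 3 * k + 3) := by
        have h5 : 4 ^ k = 2 ^ k * 2 ^ k := by rw [← mul_pow]; norm_num
        have h6 : 1 ≤ 2 ^ (4 ^ k) := Nat.one_le_two_pow
        have h7 : 1 ≤ 2 ^ k := Nat.one_le_two_pow
        have e : 2 ^ (4 ^ k + 3 * k + 3) = 8 * (2 ^ k * 2 ^ k * 2 ^ k) * 2 ^ (4 ^ k) := by
          rw [pow_add, pow_add, mul_comm 3 k, pow_mul]; ring
        rw [e]
        have h8 : 2 * 4 ^ k * ((k + 1) * 2 ^ (4 ^ k)) ≤ 2 * (2 ^ k * 2 ^ k * 2 ^ k) * 2 ^ (4 ^ k) := by
          rw [h5]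
          calc 2 * (2 ^ k * 2 ^ k) * ((k + 1) * 2 ^ (2 ^ k * 2 ^ k))
              ≤ 2 * (2 ^ k * 2 ^ k) * (2 ^ k * 2 ^ (2 ^ k * 2 ^ k)) := by gcongr
            _ = _ := by ring
        have h9 : 2 * 4 ^ k + 1 ≤ 3 * ((2 ^ k * 2 ^ k * 2 ^ k) * 2 ^ (4 ^ k)) := by
          have h10 : 4 ^ k ≤ (2 ^ k * 2 ^ k * 2 ^ k) * 2 ^ (4 ^ k) := by
            calc 4 ^ k = 2 ^ k * 2 ^ k * 1 * 1 := by rw [h5]; ring
              _ ≤ _ := by gcongr
          omega
        calc (2 * 4 ^ k + 1) + (2 * 4 ^ k + 1) + 2 * 4 ^ k * ((k + 1) * 2 ^ (4 ^ k))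
            ≤ 3 * ((2 ^ k * 2 ^ k * 2 ^ k) * 2 ^ (4 ^ k)) +
              3 * ((2 ^ k * 2 ^ k * 2 ^ k) * 2 ^ (4 ^ k)) +
              2 * (2 ^ k * 2 ^ k * 2 ^ k) * 2 ^ (4 ^ k) := add_le_add (add_le_add h9 h9) h8
          _ = _ := by ring
      have h5 : (span dd 2 XX 1 (2 * 4 ^ k) : ℝ) ≤ 2 ^ (4 ^ k + 3 * k + 3) := by
        exact_mod_cast h3.trans h4
      have h6 : Real.log (span dd 2 XX 1 (2 * 4 ^ k)) ≤ (4 ^ k + 3 * k + 3) * Real.log 2 := by
        rcases Nat.eq_zero_or_pos (span dd 2 XX 1 (2 * 4 ^ k)) with h7 | h7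
        · rw [h7]; simp only [Nat.cast_zero, Real.log_zero]; positivity
        · have h8 : (0 : ℝ) < span dd 2 XX 1 (2 * 4 ^ k) := by exact_mod_cast h7
          have h9 := Real.log_le_log h8 h5
          rw [Real.log_pow] at h9
          push_cast at h9
          exact h9
      have h7 : 5 * (3 * k + 3) ≤ 4 ^ k := by
        have : ∀ n : ℕ, 5 * (3 * (n + 4) + 3) ≤ 4 ^ (n + 4) := by
          intro n
          induction n with
          | zero => norm_num
          | succ n ih => rw [show n + 1 + 4 = (n + 4) + 1 by ring, pow_succ]; omega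
        exact this T₀
      have h8 : (5 : ℝ) * (3 * k + 3) ≤ 4 ^ k := by exact_mod_cast h7
      push_cast
      rw [div_le_iff₀ (by positivity)]
      refine h6.trans ?_
      nlinarith
  unfold PCond at h
  rw [h] at h2
  have h3 := h1.trans h2
  rw [EReal.coe_le_coe_iff] at h3
  linarith

/-- **Answer to MP_6f7bab_an, Q1 (yes: `(P_ε)` can fail).** -/
theorem _root_.Pool.Agent.Results.MP_6f7bab_an.SpanRateOscillates.result :
    ∃ (n : ℕ) (X : Set (ℕ → Fin n)) (d : Fin n → Fin n → ℝ) (k : ℕ) (ε : ℝ),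
      IsSubshift X ∧ IsMetricOn d Set.univ ∧ 1 < k ∧ IsMetricOn (D d k) X ∧ 0 < ε ∧
      ¬ PCond d k X ε := by
  refine ⟨4, XX, dd, 2, 1, isSubshift_XX, dd_metric, by norm_num, ?_, one_pos, not_PCond⟩
  intro x _ y _
  exact ⟨DD_nonneg x y, DD_eq_zero x y, DD_comm x y, fun z _ => DD_tri x y z⟩

end Pool.Agent.Results.MP_6f7bab_an.SpanRateOscillates
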